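import Pool.Agent.W402.HI.Final

/-!
# Operators whose spectrum is locally carried by a rectifiable curve, and their perturbations

`X` is a complex Banach space, `Γ` a rectifiable curve in the plane: the image of `[0,1]` under a
Lipschitz map, no other regularity, self-intersections and cusps allowed. `U` is an open set; all
assumptions are made only inside `U`. `HasHyperinvariant T`: there is a closed subspace, neither `{0}`
nor the whole space, which is invariant under every bounded operator commuting with `T`.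

(1) If the spectrum of `T` has two points and one of them is in `U`, and if the resolvent exists in
`U` off `Γ` and is at most `exp (C / dist(z, Γ) ^ k)` there, then `T` has a nontrivial closed
hyperinvariant subspace.

(2) The same for `S + K` when the resolvent of `S` grows in `U` off `Γ` at most like `R(δ)` at the
distance `δ`, `log R(δ) = O (δ ^ (-k))`, and `K` can be approximated up to `1 / (2 R(δ))` by operators
of rank `O (δ ^ (-k))`.

(3) In particular: polynomial growth of the resolvent of `S`, and `K` with approximation numbers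
`O (m ^ (-ε))` (for example in a Schatten class).

(4) In particular: growth `exp (C / dist ^ k)`, and approximation numbers `O (exp (- m ^ ε))`.

(5) On a Hilbert space: `N` normal, the part of its spectrum in `U` on `Γ`, `K` with approximation
numbers `O (m ^ (-ε))`, the spectrum of `N + K` meets `U`. Then `N + K` is a multiple of the identity
or has a nontrivial closed hyperinvariant subspace. (One point spectra are not excluded here.)

For smooth curves such theorems are due to Wermer, Leaf, Livsic, Ljubic and Macaev, Schwartz, Kitano,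
Apostol, Radjabalipour and Radjavi; they prove decomposability, which needs regularity of the curve.

Proof. After a rotation almost every vertical line meets `Γ` in finitely many points, and at these
points `Γ` has a tangent which is not vertical (area formula). For such a line there are two cut-off
functions, carried by the two sides of the line and asymptotically holomorphic at `Γ` and at the
finitely many points, where only the growth of the resolvent outside the cones about the tangents
matters. The functional calculus of the two functions gives two nonzero operators whose product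
over the commutant vanishes. For the perturbation `S + K` the growth of the resolvent outside cones
follows from Harnack's inequality for the perturbation determinant of a finite rank approximation, which
has no zero off `Γ`. Eigenvalues off `Γ` and one point spectra are treated by Lomonosov's theorem.

The proof is project HI of the starting library (`Pool/Agent/W402/HI` and the files of the parts, by
helpers 402, 816, 261, 613, 778, 85, 366, 324, 991, 577, 806, 32, 287, 340, 320), never handed in
there; here it is assembled.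
-/

set_option autoImplicit false

open Metric

namespace Pool.Agent.Results.MP_f981b0_an.RectifiableSpectra

section Defs

variable {X : Type} [NormedAddCommGroup X] [NormedSpace ℂ X]

/-- `T` has a closed subspace, neither `{0}` nor the whole space, which is invariant under every
bounded operator commuting with `T`. -/
def HasHyperinvariant (T : X →L[ℂ] X) : Prop :=
  ∃ V : Submodule ℂ X, IsClosed (V : Set X) ∧ V ≠ ⊥ ∧ V ≠ ⊤ ∧
    ∀ Q : X →L[ℂ] X, Q * T = T * Q → ∀ x ∈ V, Q x ∈ V

/-- `Γ` is a rectifiable curve: the image of `[0,1]` under a Lipschitz map. -/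
def RectifiableCurve (Γ : Set ℂ) : Prop :=
  ∃ (γ : ℝ → ℂ) (L : NNReal), LipschitzWith L γ ∧ Γ = γ '' Set.Icc 0 1

/-- The spectrum of `T` has a point in `U`, and it has at least two points. -/
def Meets (T : X →L[ℂ] X) (U : Set ℂ) : Prop :=
  (∃ p ∈ spectrum ℂ T, p ∈ U) ∧ (spectrum ℂ T).Nontrivial

/-- `K` can be approximated up to `r` by an operator of rank at most `m`. -/
def Approx (K : X →L[ℂ] X) (m r : ℝ) : Prop :=
  ∃ G : X →L[ℂ] X, FiniteDimensional ℂ (LinearMap.range (G : X →ₗ[ℂ] X)) ∧
    (Module.finrank ℂ (LinearMap.range (G : X →ₗ[ℂ] X)) : ℝ) ≤ m ∧ ‖K - G‖ ≤ r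

/-- Inside `U` the resolvent of `S` exists off `Γ` and is at most `exp (C / dist(z, Γ) ^ k)`. -/
def ExpGrowth (S : X →L[ℂ] X) (Γ U : Set ℂ) : Prop :=
  ∃ (C : ℝ) (k : ℕ), ∀ z ∈ U, z ∉ Γ → z ∈ resolventSet ℂ S ∧
    ‖resolvent S z‖ ≤ Real.exp (C / infDist z Γ ^ k)

/-- Inside `U` the resolvent of `S` exists off `Γ` and is at most `C / dist(z, Γ) ^ k`. -/
def PolyGrowth (S : X →L[ℂ] X) (Γ U : Set ℂ) : Prop :=
  ∃ (C : ℝ) (k : ℕ), ∀ z ∈ U, z ∉ Γ → z ∈ resolventSet ℂ S ∧
    ‖resolvent S z‖ ≤ C / infDist z Γ ^ k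

/-- Growth of the resolvent of `S` matched with the approximability of `K`: for `0 < δ ≤ 1` the
resolvent of `S` exists at the points of `U` at distance at least `δ` from `Γ` and is at most `R`
there, where `R ≤ exp (C / δ ^ k)`, and `K` is approximable up to `1 / (2 R)` by an operator of rank at
most `C / δ ^ k`. -/
def Matched (S K : X →L[ℂ] X) (Γ U : Set ℂ) : Prop :=
  ∃ (C : ℝ) (k : ℕ), ∀ δ : ℝ, 0 < δ → δ ≤ 1 → ∃ R : ℝ,
    1 ≤ R ∧ R ≤ Real.exp (C / δ ^ k) ∧ Approx K (C / δ ^ k) (1 / (2 * R)) ∧
    ∀ z ∈ U, δ ≤ infDist z Γ → z ∈ resolventSet ℂ S ∧ ‖resolvent S z‖ ≤ R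

/-- The approximation numbers of `K` are `O (m ^ (-ε))` for some `ε > 0`. -/
def PolyDecay (K : X →L[ℂ] X) : Prop :=
  ∃ C ε : ℝ, 0 < ε ∧ ∀ m : ℕ, 1 ≤ m → Approx K m (C / (m : ℝ) ^ ε)

/-- The approximation numbers of `K` are `O (exp (- m ^ ε))` for some `ε > 0`. -/
def ExpDecay (K : X →L[ℂ] X) : Prop :=
  ∃ C ε : ℝ, 0 < ε ∧ ∀ m : ℕ, 1 ≤ m → Approx K m (C * Real.exp (-(m : ℝ) ^ ε))

end Defs

open Pool.Agent.W402.HI

lemma approxDecay {X : Type} [NormedAddCommGroup X] [NormedSpace ℂ X] {K : X →L[ℂ] X}
    (h : PolyDecay K) : ApproxDecay K := by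
  obtain ⟨C, ε, hε, h⟩ := h
  refine ⟨C, ε, hε, fun m hm => ?_⟩
  obtain ⟨G, h1, h2, h3⟩ := h m hm
  exact ⟨G, h1, by exact_mod_cast h2, h3⟩

lemma expDecay {X : Type} [NormedAddCommGroup X] [NormedSpace ℂ X] {K : X →L[ℂ] X}
    (h : ExpDecay K) : Asm.ExpDecay K := by
  obtain ⟨C, ε, hε, h⟩ := h
  refine ⟨C, ε, hε, fun m hm => ?_⟩
  obtain ⟨G, h1, h2, h3⟩ := h m hm
  exact ⟨G, h1, by exact_mod_cast h2, h3⟩

lemma matched {X : Type} [NormedAddCommGroup X] [NormedSpace ℂ X] {S K : X →L[ℂ] X} {Γ U : Set ℂ}
    (h : Matched S K Γ U) : ∃ (C : ℝ) (k : ℕ), Asm.Matched S K Γ U C k := by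
  obtain ⟨C, k, h⟩ := h
  refine ⟨C, k, fun δ hδ hδ1 => ?_⟩
  obtain ⟨R, h1, h2, ⟨G, g1, g2, g3⟩, h4⟩ := h δ hδ hδ1
  refine ⟨G, R, g1, g2, h1, h2, ?_, h4⟩
  have hR : 0 < R := by linarith
  calc ‖K - G‖ * R ≤ 1 / (2 * R) * R := by gcongr
    _ = 1 / 2 := by field_simp

/-- (1): the growth theorem. -/
def PartOne (Γ U : Set ℂ) : Prop :=
  ∀ (X : Type) [NormedAddCommGroup X] [NormedSpace ℂ X] [CompleteSpace X] (T : X →L[ℂ] X),
    ExpGrowth T Γ U → Meets T U → HasHyperinvariant T

/-- (2): perturbations, growth matched with approximability. -/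
def PartTwo (Γ U : Set ℂ) : Prop :=
  ∀ (X : Type) [NormedAddCommGroup X] [NormedSpace ℂ X] [CompleteSpace X] (S K : X →L[ℂ] X),
    Matched S K Γ U → Meets (S + K) U → HasHyperinvariant (S + K)

/-- (3): polynomial growth, polynomial decay. -/
def PartThree (Γ U : Set ℂ) : Prop :=
  ∀ (X : Type) [NormedAddCommGroup X] [NormedSpace ℂ X] [CompleteSpace X] (S K : X →L[ℂ] X),
    PolyGrowth S Γ U → PolyDecay K → Meets (S + K) U → HasHyperinvariant (S + K)

/-- (4): growth of finite order, stretched exponential decay. -/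
def PartFour (Γ U : Set ℂ) : Prop :=
  ∀ (X : Type) [NormedAddCommGroup X] [NormedSpace ℂ X] [CompleteSpace X] (S K : X →L[ℂ] X),
    ExpGrowth S Γ U → ExpDecay K → Meets (S + K) U → HasHyperinvariant (S + K)

/-- (5): perturbations of normal operators. -/
def PartFive (Γ U : Set ℂ) : Prop :=
  ∀ (H : Type) [NormedAddCommGroup H] [InnerProductSpace ℂ H] [CompleteSpace H]
    (N K : H →L[ℂ] H), IsStarNormal N → spectrum ℂ N ∩ U ⊆ Γ → PolyDecay K →
    (∃ p ∈ spectrum ℂ (N + K), p ∈ U) →
    (∃ c : ℂ, N + K = c • (1 : H →L[ℂ] H)) ∨ HasHyperinvariant (N + K)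

/-- **Operators whose spectrum is locally carried by a rectifiable curve and their perturbations
have nontrivial closed hyperinvariant subspaces.** -/
theorem result (Γ U : Set ℂ) (hΓ : RectifiableCurve Γ) (hU : IsOpen U) :
    PartOne Γ U ∧ PartTwo Γ U ∧ PartThree Γ U ∧ PartFour Γ U ∧ PartFive Γ U := by
  obtain ⟨γ, L, hγ, rfl⟩ := hΓ
  refine ⟨?_, ?_, ?_, ?_, ?_⟩
  · intro X _ _ _ T hT hM
    exact Asm.growth Final.hH2 Final.hH3 X T γ L hγ U hU hT hM.1 hM.2
  · intro X _ _ _ S K hM hm
    obtain ⟨C, k, hC⟩ := matched hM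
    exact Asm.perturbGen Final.hH2 Final.hE3 Pool.Agent.W324.HI.E4.main X S K γ L hγ U hU C k hC
      hm.1 hm.2
  · intro X _ _ _ S K hS hK hm
    exact Asm.perturb Final.hH2 Final.hE3 Pool.Agent.W324.HI.E4.main Pool.Agent.W991.HI.E5.main
      Pool.Agent.W991.HI.E5L.main X S K γ L hγ U hU (approxDecay hK) hS hm.1 hm.2
  · intro X _ _ _ S K hS hK hm
    exact Asm.perturbExp Final.hH2 Final.hE3 Pool.Agent.W324.HI.E4.main
      Pool.Agent.W991.HI.E5.main X S K γ L hγ U hU (expDecay hK) hS hm.1 hm.2
  · intro H _ _ _ N K hN hNU hK hp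
    by_cases hs : ∃ c : ℂ, N + K = c • (1 : H →L[ℂ] H)
    · exact Or.inl hs
    · exact Or.inr (Asm.normal Final.hH2 Final.hE3 Pool.Agent.W324.HI.E4.main
        Pool.Agent.W991.HI.E5.main Pool.Agent.W991.HI.E5L.main Pool.Agent.W577.HI.G1.main
        Pool.Agent.W806.HI.main Pool.Agent.W32.HI.G3.main H N K hN γ L hγ U hU
        (fun z hz hzU => hNU ⟨hz, hzU⟩) (approxDecay hK) hp hs)

end Pool.Agent.Results.MP_f981b0_an.RectifiableSpectra
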