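import Mathlib
import Pool.Agent.Y187.RF.Mod
import Pool.Agent.Y187.RF.Main
import Pool.Agent.Y187.RF.Gen

/-!
# MP_f981b0_an: the invariant subspace problem relative to a II_1 factor has a negative answer
-/

set_option autoImplicit false

open Filter Topology
open scoped ComplexOrder InnerProductSpace

namespace Pool.Agent.Results.MP_f981b0_an.RelativeToFactors

/-- The bounded operators on `H`. -/
abbrev Op (H : Type) [NormedAddCommGroup H] [InnerProductSpace ℂ H] : Type := H →L[ℂ] H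

/-- The von Neumann algebra `M` on `H` is a factor of type II_1 in its standard form, and `ξ` is its
trace vector: `M` has trivial centre and infinite dimension, `x ↦ ⟪ξ, x ξ⟫` is a tracial state on
`M`, and `ξ` is separating and cyclic for `M`. -/
structure IsIIOneFactor {H : Type} [NormedAddCommGroup H] [InnerProductSpace ℂ H] [CompleteSpace H]
    (M : VonNeumannAlgebra H) (ξ : H) : Prop where
  factor : ∀ z ∈ M, (∀ x ∈ M, z * x = x * z) → ∃ c : ℂ, ∀ v : H, z v = c • v
  infinite : ∀ s : Set (H →L[ℂ] H), s.Finite → ∃ x ∈ M, x ∉ Submodule.span ℂ s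
  norm_one : ‖ξ‖ = 1
  trace : ∀ x ∈ M, ∀ y ∈ M, ⟪ξ, x (y ξ)⟫_ℂ = ⟪ξ, y (x ξ)⟫_ℂ
  separating : ∀ x ∈ M, x ξ = 0 → x = 0
  cyclic : Dense {η : H | ∃ x ∈ M, x ξ = η}

/-- The operator `|T - μ|^2 + ε`. -/
noncomputable def regularised {H : Type} [NormedAddCommGroup H] [InnerProductSpace ℂ H]
    [CompleteSpace H] (T : H →L[ℂ] H) (μ : ℂ) (ε : ℝ) : H →L[ℂ] H :=
  star (T - μ • (1 : H →L[ℂ] H)) * (T - μ • (1 : H →L[ℂ] H)) + (ε : ℂ) • (1 : H →L[ℂ] H)

/-- `τ (log (|T - μ|^2 + ε)) / 2`, where `τ x = ⟪ξ, x ξ⟫`. -/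
noncomputable def logDet {H : Type} [NormedAddCommGroup H] [InnerProductSpace ℂ H]
    [CompleteSpace H] (ξ : H) (T : H →L[ℂ] H) (μ : ℂ) (ε : ℝ) : ℝ :=
  (⟪ξ, (CFC.log (regularised T μ ε)) ξ⟫_ℂ).re / 2

/-- The Brown measure of `T` with respect to the trace vector `ξ` is the point mass at `0`: the
logarithm of the Fuglede-Kadison determinant of `T - μ`, that is the limit of
`τ (log (|T - μ|^2 + ε)) / 2` for `ε → 0+`, is `log |μ|` for all `μ ≠ 0`. -/
def BrownMeasureAtZero {H : Type} [NormedAddCommGroup H] [InnerProductSpace ℂ H] [CompleteSpace H]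
    (ξ : H) (T : H →L[ℂ] H) : Prop :=
  ∀ μ : ℂ, μ ≠ 0 → Tendsto (fun ε : ℝ => logDet ξ T μ ε) (𝓝[>] 0) (𝓝 (Real.log ‖μ‖))

/-- `T` is nonzero and quasinilpotent, all its moments `τ (T ^ m)`, `m ≥ 1`, vanish, and its Brown
measure is the point mass at `0`. -/
structure IsQuasinilpotent {H : Type} [NormedAddCommGroup H] [InnerProductSpace ℂ H]
    [CompleteSpace H] (ξ : H) (T : H →L[ℂ] H) : Prop where
  ne_zero : T ≠ 0
  spectrum_eq : spectrum ℂ T = {0}
  moments : ∀ m : ℕ, 1 ≤ m → ⟪ξ, (T ^ m) ξ⟫_ℂ = 0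
  brown : BrownMeasureAtZero ξ T

/-- `T` has no nontrivial closed invariant subspace relative to `M`: the only closed subspaces of
`H` which are invariant under `T` and under all operators commuting with `M` (that is, whose
projection is in `M`) are `0` and `H`. -/
def NoRelativeSubspace {H : Type} [NormedAddCommGroup H] [InnerProductSpace ℂ H] [CompleteSpace H]
    (M : VonNeumannAlgebra H) (T : H →L[ℂ] H) : Prop :=
  ∀ V : Submodule ℂ H, IsClosed (V : Set H) → (∀ v ∈ V, T v ∈ V) →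
    (∀ B : H →L[ℂ] H, (∀ y ∈ M, B * y = y * B) → ∀ v ∈ V, B v ∈ V) → V = ⊥ ∨ V = ⊤

/-- The map `ρ` restricts to a *-isomorphism of `M` onto `N`. -/
structure IsIso {H : Type} [NormedAddCommGroup H] [InnerProductSpace ℂ H] [CompleteSpace H]
    {K : Type} [NormedAddCommGroup K] [InnerProductSpace ℂ K] [CompleteSpace K]
    (M : VonNeumannAlgebra H) (N : VonNeumannAlgebra K) (ρ : Op H → Op K) : Prop where
  mapsTo : ∀ x ∈ M, ρ x ∈ N
  surj : ∀ y ∈ N, ∃ x ∈ M, ρ x = y
  inj : ∀ x ∈ M, ∀ y ∈ M, ρ x = ρ y → x = y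
  map_add : ∀ x ∈ M, ∀ y ∈ M, ρ (x + y) = ρ x + ρ y
  map_smul : ∀ c : ℂ, ∀ x ∈ M, ρ (c • x) = c • ρ x
  map_mul : ∀ x ∈ M, ∀ y ∈ M, ρ (x * y) = ρ x * ρ y
  map_star : ∀ x ∈ M, ρ (star x) = star (ρ x)

/-- For every isomorphism `ρ` of `M` onto a von Neumann algebra `N` on a Hilbert space `K`, no
nontrivial closed subspace of `K` relative to `N` is invariant under `ρ T`. -/
def NoneInAnyRepresentation {H : Type} [NormedAddCommGroup H] [InnerProductSpace ℂ H]
    [CompleteSpace H] (M : VonNeumannAlgebra H) (T : H →L[ℂ] H) : Prop :=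
  ∀ (K : Type) [NormedAddCommGroup K] [InnerProductSpace ℂ K] [CompleteSpace K]
    (N : VonNeumannAlgebra K) (ρ : Op H → Op K), IsIso M N ρ → NoRelativeSubspace N (ρ T)

/-- **Theorem.** There are a II_1 factor `M` in standard form on a separable Hilbert space and a
nonzero quasinilpotent operator `T ∈ M` (spectrum `{0}`, Brown measure the point mass at `0`, all
moments `τ (T ^ m)`, `m ≥ 1`, zero) such that no closed subspace other than `0` and the whole space,
affiliated with `M`, is invariant under `T`; and for every isomorphism `ρ` of `M` onto a von Neumann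
algebra `N` the same is true for `ρ T` and `N`. -/
theorem result : ∃ (H : Type) (_ : NormedAddCommGroup H) (_ : InnerProductSpace ℂ H)
    (_ : CompleteSpace H) (M : VonNeumannAlgebra H) (ξ : H) (T : Op H),
    TopologicalSpace.SeparableSpace H ∧ IsIIOneFactor M ξ ∧ T ∈ M ∧ IsQuasinilpotent ξ T ∧
    NoRelativeSubspace M T ∧ NoneInAnyRepresentation M T := by
  obtain ⟨T, hTM, h0, hs, hmom, hB, hN⟩ := Pool.Agent.Y187.RF.exists_T
  have hII := Pool.Agent.Y187.RF.isIIOne
  refine ⟨_, inferInstance, inferInstance, inferInstance, _, _, T,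
    Pool.Agent.Y187.RF.separable_Hs,
    ⟨?_, ?_, hII.norm_one, hII.trace, hII.separating, hII.cyclic⟩, hTM,
    ⟨h0, hs, hmom, hB⟩, fun V hV h1 h2 => Pool.Agent.Y187.RF.eq_bot_or_top _ T hN V hV h1 h2, ?_⟩
  · intro z hz h
    obtain ⟨c, hc⟩ := hII.factor z hz h
    exact ⟨c, fun v => by rw [hc]; rfl⟩
  · intro s hs'
    by_contra hcon
    push Not at hcon
    apply hII.infinite
    have hfin : FiniteDimensional ℂ (Submodule.span ℂ s) := FiniteDimensional.span_of_finite ℂ hs'
    exact Submodule.finiteDimensional_of_le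
      (S₁ := Subalgebra.toSubmodule (Pool.Agent.H941R2.CM.M.toStarSubalgebra).toSubalgebra)
      (fun x hx => hcon x hx)
  intro K _ _ _ N ρ h
  let φ : Pool.Agent.H941R2.CM.M.toStarSubalgebra →⋆ₐ[ℂ] N.toStarSubalgebra :=
    { toFun := fun x => ⟨ρ x.1, h.mapsTo _ x.2⟩
      map_one' := by
        obtain ⟨u, hu, hu1⟩ := h.surj 1 (one_mem N)
        have h5 : ρ (u * 1) = ρ u * ρ 1 := h.map_mul u hu 1 (one_mem _)
        rw [mul_one, hu1, one_mul] at h5
        exact Subtype.ext h5.symm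
      map_mul' := fun x y => Subtype.ext (h.map_mul _ x.2 _ y.2)
      map_zero' := by
        have h5 : ρ ((0 : ℂ) • (0 : Op _)) = (0 : ℂ) • ρ 0 := h.map_smul 0 0 (zero_mem _)
        rw [smul_zero, zero_smul] at h5
        exact Subtype.ext h5
      map_add' := fun x y => Subtype.ext (h.map_add _ x.2 _ y.2)
      commutes' := by
        intro c
        obtain ⟨u, hu, hu1⟩ := h.surj 1 (one_mem N)
        have h5 : ρ (u * 1) = ρ u * ρ 1 := h.map_mul u hu 1 (one_mem _)
        rw [mul_one, hu1, one_mul] at h5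
        have h6 : ρ (c • (1 : Op _)) = c • ρ 1 := h.map_smul c 1 (one_mem _)
        apply Subtype.ext
        rw [← h5] at h6
        exact h6
      map_star' := fun x => Subtype.ext (h.map_star _ x.2) }
  have hφ : Function.Bijective φ := by
    constructor
    · intro x y hxy
      exact Subtype.ext (h.inj _ x.2 _ y.2 (congrArg Subtype.val hxy))
    · intro y
      obtain ⟨x, hx, hxy⟩ := h.surj y.1 y.2
      exact ⟨⟨x, hx⟩, Subtype.ext hxy⟩
  have h3 := Pool.Agent.Y187.RF.noInvariantProjection_iso hTM hN N (StarAlgEquiv.ofBijective φ hφ)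
  exact fun V hV h1 h2 => Pool.Agent.Y187.RF.eq_bot_or_top N _ h3 V hV h1 h2

end Pool.Agent.Results.MP_f981b0_an.RelativeToFactors
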