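import Pool.Agent.X207.RBCalc

/-!
# Rank one perturbations of scalar type operators on reflexive Banach spaces

Let `X` be a complex reflexive Banach space and let `N` be a bounded operator on `X` which has a
continuous functional calculus: there are a compact set `K` in the plane and a continuous unital
homomorphism from `C(K)` to the algebra of bounded operators on `X` which maps the identity function
to `N` (on reflexive spaces these are the scalar type spectral operators of Dunford: multiplications by
bounded functions on `L^p`, `1 < p < ∞`, diagonal operators with respect to unconditional bases or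
unconditional decompositions, operators similar to normal operators on Hilbert space; no condition is
put on the spectrum of `N`). Let `u` be a vector and `f` a functional, both arbitrary. Then
`T x = N x + f(x) u` is a multiple of the identity or has a nontrivial closed hyperinvariant subspace.
Moreover every point `c` of the spectrum of `T` carries, for every `ε > 0`, a nonzero vector `x` with
`‖(T - c)^n x‖ ≤ C ε ^ n` for all `n` (its local spectrum is in the disc of radius `ε` about `c`), and
the same holds for the adjoint of `T` on the dual space.

For normal operators on Hilbert space this is the result `RankOnePerturbations` of the starting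
repository; the proof there runs in `L²(μ)` (spectral theorem, multiplication by `φ`). In a reflexive
Banach space there is no model, no inner product, and the representing measures of `h ↦ w(h(N)x)`
are not products of two square integrable densities. The analytic part (the alternative about polygons
and cut off functions for the weight `|1 - ∫ dm/(z - λ)|`, library `Y271.RO` and its parts) only concerns
a complex measure in the plane and is used as it stands. New here: the Borel functional calculus `P` is
built from the continuous one by Riesz representation and reflexivity (`RBCalc`); the vectors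
`P(h) u`, their weak limits and the almost everywhere convergence are obtained for each functional
separately from the measure representing `h ↦ w(P(h)x)` with unimodular density (`RBDefs`, `RBTest`,
`RBVec`, `RBPtw`, `RBCut`); the essential spectrum is replaced by the set of points `a` such that all
projections `P(1_D)`, `D` a disc about `a`, have infinite rank, surjectivity modulo `u` is excluded by
the open mapping theorem and Riesz' lemma, and outside this set the Fredholm alternative gives
eigenvectors (`RBEss`, `RBThm`); if there is only one such point, `T - c` is compact, and Lomonosov's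
theorem (library `W577.HI.G1`) applies. Adjoints are taken on the dual space, which is again reflexive
and on which `P(h)*` is a calculus for `N*`.
-/

set_option autoImplicit false

namespace Pool.Agent.Results.MP_f981b0_an.ScalarTypeRankOne

section Defs

variable {X : Type} [NormedAddCommGroup X] [NormedSpace ℂ X]

/-- `X` is reflexive: the canonical map of `X` into its second dual is onto. -/
def Reflexive (X : Type) [NormedAddCommGroup X] [NormedSpace ℂ X] : Prop :=
  Function.Surjective (NormedSpace.inclusionInDoubleDual ℂ X)

/-- `N` has a continuous functional calculus: for some compact `K ⊆ ℂ` there is a continuous unital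
algebra homomorphism from `C(K, ℂ)` to the bounded operators on `X` which maps the function `z ↦ z`
to `N`. -/
def HasContinuousCalculus (N : X →L[ℂ] X) : Prop :=
  ∃ (K : Set ℂ) (_ : IsCompact K) (Φ : C(K, ℂ) →ₐ[ℂ] (X →L[ℂ] X)), Continuous Φ ∧
    Φ ⟨fun z => (z : ℂ), continuous_subtype_val⟩ = N

/-- `T` is a multiple of the identity. -/
def IsScalar (T : X →L[ℂ] X) : Prop := ∃ c : ℂ, T = c • (1 : X →L[ℂ] X)

/-- `T` has a closed subspace, neither `{0}` nor the whole space, which is invariant under every
bounded operator commuting with `T`. -/
def HasHyperinvariant (T : X →L[ℂ] X) : Prop :=
  ∃ V : Submodule ℂ X, IsClosed (V : Set X) ∧ V ≠ ⊥ ∧ V ≠ ⊤ ∧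
    ∀ Q : X →L[ℂ] X, Q * T = T * Q → ∀ x ∈ V, Q x ∈ V

/-- For every point `c` of the spectrum and every `ε > 0` there is a nonzero vector `x` with
`‖(T - c)^n x‖ ≤ C ε ^ n` for all `n`. -/
def SmallLocalSpectra (T : X →L[ℂ] X) : Prop :=
  ∀ c ∈ spectrum ℂ T, ∀ ε : ℝ, 0 < ε → ∃ (x : X) (C : ℝ), x ≠ 0 ∧
    ∀ n : ℕ, ‖((T - c • (1 : X →L[ℂ] X)) ^ n) x‖ ≤ C * ε ^ n

/-- The adjoint of `T` on the dual space, `w ↦ w ∘ T`. -/
noncomputable def dualMap (T : X →L[ℂ] X) : StrongDual ℂ X →L[ℂ] StrongDual ℂ X :=
  (ContinuousLinearMap.compL ℂ X X ℂ).flip T

end Defs

/-- **Rank one perturbations of scalar type operators on reflexive Banach spaces have hyperinvariant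
subspaces.** Let `N` have a continuous functional calculus on the reflexive Banach space `X`, let
`u ∈ X`, `f ∈ X*` and `T x = N x + f(x) u`. Then `T` is a multiple of the identity or has a nontrivial
hyperinvariant subspace, and `T` and its adjoint on the dual space have small local spectra. -/
theorem result (X : Type) [NormedAddCommGroup X] [NormedSpace ℂ X] [CompleteSpace X]
    (hX : Reflexive X) (N T : X →L[ℂ] X) (hN : HasContinuousCalculus N) (u : X)
    (f : StrongDual ℂ X) (hT : ∀ x, T x = N x + f x • u) :
    (IsScalar T ∨ HasHyperinvariant T) ∧ SmallLocalSpectra T ∧ SmallLocalSpectra (dualMap T) := by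
  obtain ⟨K, hK, Φ, hΦ, hΦN⟩ := hN
  obtain ⟨P, C₀, hc⟩ := Pool.Agent.X207.RB.exists_calc hX hK Φ hΦ
  have h1 : Φ (Pool.Agent.X207.RB.res K (fun z => z) continuous_id) = N := hΦN
  rw [h1] at hc
  have h : T = Pool.Agent.X207.RB.TT N u f := by
    ext1 x
    rw [hT x]
    rfl
  rw [h]
  exact Pool.Agent.X207.RB.main hX hc u f

end Pool.Agent.Results.MP_f981b0_an.ScalarTypeRankOne
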