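import Pool.Agent.H952R2.TY.P.A1
import Pool.Agent.H952R2.TY.P.A2
import Pool.Agent.H952R2.TY.P.A3
import Pool.Agent.H952R2.TY.P.A4
import Pool.Agent.H952R2.TY.P.A5
import Pool.Agent.H952R2.TY.P.A6
import Pool.Agent.H952R2.TY.P.A7
import Pool.Agent.H952R2.TY.P.A8
import Pool.Agent.H952R2.TY.P.A9
import Pool.Agent.H952R2.TY.P.A10
import Pool.Agent.H952R2.TY.P.A11
import Pool.Agent.H952R2.TY.P.A12
import Pool.Agent.H952R2.TY.P.B0
import Pool.Agent.H952R2.TY.P.B1
import Pool.Agent.H952R2.TY.P.B2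
import Pool.Agent.H952R2.TY.P.B3
import Pool.Agent.H952R2.TY.P.B4
import Pool.Agent.H952R2.TY.P.B5
import Pool.Agent.H952R2.TY.P.B6
import Pool.Agent.H952R2.TY.P.B7
import Pool.Agent.H952R2.TY.P.C1
import Pool.Agent.H952R2.TY.P.C2
import Pool.Agent.H952R2.TY.P.C3
import Pool.Agent.H952R2.TY.P.C4
import Pool.Agent.H952R2.TY.P.C5
import Pool.Agent.H952R2.TY.P.C6
import Pool.Agent.H952R2.TY.P.D1
import Pool.Agent.H952R2.TY.P.D2
import Pool.Agent.H952R2.TY.P.D3
import Pool.Agent.H952R2.TY.P.D4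
import Pool.Agent.H952R2.TY.P.D5
import Pool.Agent.H952R2.TY.P.D6
import Pool.Agent.H952R2.TY.P.D7
import Pool.Agent.H952R2.TY.P.T1
import Pool.Agent.H952R2.TY.P.T2
import Pool.Agent.H952R2.TY.P.T3
import Pool.Agent.H952R2.TY.P.T4
import Pool.Agent.H952R2.TY.P.T5
import Pool.Agent.H952R2.TY.P.T6
import Pool.Agent.H952R2.TY.P.T7
import Pool.Agent.H952R2.TY.P.T8
import Pool.Agent.H952R2.TY.P.STEP2
import Pool.Agent.H952R2.TY.P.FIN2

/-!
# MP_f981b0_an: typical quasinilpotent contractions of McDuff algebras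
-/

set_option autoImplicit false
open Filter Topology
open scoped ComplexOrder InnerProductSpace

namespace Pool.Agent.Results.MP_f981b0_an.TypicalInMcDuffAlgebras

open Pool.H711R2 Pool.Agent.H952R2.TY

/-- `τ` restricts to a faithful normal tracial state of the von Neumann algebra `M`. -/
structure IsFNTrace {H : Type} [NormedAddCommGroup H] [InnerProductSpace ℂ H] [CompleteSpace H]
    (M : VonNeumannAlgebra H) (τ : (H →L[ℂ] H) →ₗ[ℂ] ℂ) : Prop where
  one : τ 1 = 1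
  pos : ∀ x ∈ M, 0 ≤ τ (star x * x)
  faithful : ∀ x ∈ M, τ (star x * x) = 0 → x = 0
  trace : ∀ x ∈ M, ∀ y ∈ M, τ (x * y) = τ (y * x)
  normal : ∀ (x : ℕ → (H →L[ℂ] H)) (y : H →L[ℂ] H), (∀ n, x n ∈ M) → (∀ n, ‖x n‖ ≤ 1) → y ∈ M →
    (∀ v, Tendsto (fun n => x n v) atTop (𝓝 (y v))) → Tendsto (fun n => τ (x n)) atTop (𝓝 (τ y))

/-- The McDuff property: every operator of `M` almost commutes, in the 2-norm, with a system of
`m × m` matrix units of `M` with sum `1`, for every `m ≥ 1`. -/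
def IsMcDuff {H : Type} [NormedAddCommGroup H] [InnerProductSpace ℂ H] [CompleteSpace H]
    (M : VonNeumannAlgebra H) (τ : (H →L[ℂ] H) →ₗ[ℂ] ℂ) : Prop :=
  ∀ m : ℕ, 1 ≤ m → ∀ T ∈ M, ∀ ε : ℝ, 0 < ε → ∃ e : Fin m → Fin m → (H →L[ℂ] H),
    (∀ i j, e i j ∈ M) ∧ (∀ i j k l, e i j * e k l = if j = k then e i l else 0) ∧
    (∀ i j, star (e i j) = e j i) ∧ ∑ i, e i i = 1 ∧
    ∀ i j, (τ (star (e i j * T - T * e i j) * (e i j * T - T * e i j))).re ≤ ε

theorem fin2 : P.S_FIN2 := by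
  have hA1 : S_A1 := P.A1
  have hA11 : S_A11 := P.A11
  have hA2 : S_A2 := P.A2
  have hA3 : S_A3 := P.A3
  have hA4 : S_A4 := P.A4 hA3
  have hA5 : S_A5 := P.A5
  have hA6 : S_A6 := P.A6
  have hA7 : S_A7 := P.A7
  have hA8 : S_A8 := P.A8
  have hA9 : S_A9 := P.A9
  have hB0 : S_B0 := P.B0
  have hB1 : S_B1 := P.B1
  have hB2 : S_B2 := P.B2 hB0 hB1
  have hB3 : S_B3 := P.B3
  have hB4 : S_B4 := P.B4
  have hB5 : S_B5 := P.B5 hB3
  have hB6 : S_B6 := P.B6
  have hB7 : S_B7 := P.B7 hB0 hB1 hB2 hB3 hB4 hB5 hB6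
  have hC1 : S_C1 := P.C1 hA1
  have hC2 : S_C2 := P.C2
  have hC3 : S_C3 := P.C3 hC2
  have hC4 : S_C4 := P.C4 hC1 hC2 hC3
  have hC5 : S_C5 := P.C5 hC2
  have hC6 : S_C6 := P.C6 hC2
  have hD1 : S_D1 := P.D1 hC1 hC2
  have hD2 : S_D2 := P.D2 hC2 hD1
  have hD3 : S_D3 := P.D3
  have hD4 : S_D4 := P.D4
  have hD5 : S_D5 := P.D5
  have hD6 : S_D6 := P.D6
  have hD7 : S_D7 := P.D7
  have hT1 : S_T1 := P.T1
  have hT2 : S_T2 := P.T2
  have hT3 : S_T3 := P.T3 hT2
  have hT4 : S_T4 := P.T4 hT1 hT3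
  have hT5 : S_T5 := P.T5
  have hT6 : S_T6 := P.T6 hT1
  have hT7 : S_T7 := P.T7 hT1 hT3 hD5
  have hT8 : S_T8 := P.T8 hC1 hC6
  have hA10 : S_A10 := P.A10 hA1 hA2 hA3 hA4 hA5 hA6 hA7 hA8 hA9
  have hA12 : S_A12 := P.A12 hA10 hA11
  have hS := P.STEP2 hA12 hB0 hB7 hC1 hC4 hC6 hD1 hD2 hD3 hD4 hD5 hD6 hD7
  exact P.FIN2 hT4 hT5 hT6 hT7 hT8 hS hC5

/-- `T` has a nontrivial closed subspace `V`, the range of a projection `E` of `M` of trace `1/2`
(relative dimension one half), which is invariant under all operators of `M` that commute with `T`,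
in particular under `T`. -/
def HasHalfSubspace {H : Type} [NormedAddCommGroup H] [InnerProductSpace ℂ H] [CompleteSpace H]
    (M : VonNeumannAlgebra H) (τ : (H →L[ℂ] H) →ₗ[ℂ] ℂ) (T : H →L[ℂ] H) : Prop :=
  ∃ (V : Submodule ℂ H) (E : H →L[ℂ] H), E ∈ M ∧ star E = E ∧ E * E = E ∧ τ E = 1 / 2 ∧
    (∀ v, v ∈ V ↔ E v = v) ∧ IsClosed (V : Set H) ∧ V ≠ ⊥ ∧ V ≠ ⊤ ∧
    ∀ S ∈ M, S * T = T * S → ∀ v ∈ V, S v ∈ V

theorem half_of {H : Type} [NormedAddCommGroup H] [InnerProductSpace ℂ H] [CompleteSpace H]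
    {M : VonNeumannAlgebra H} {τ : (H →L[ℂ] H) →ₗ[ℂ] ℂ} (h1 : τ 1 = 1) {T : H →L[ℂ] H}
    (h : ∃ E ∈ M, star E = E ∧ E * E = E ∧ τ E = 1 / 2 ∧
      ∀ S ∈ M, S * T = T * S → S * E = E * S * E) : HasHalfSubspace M τ T := by
  obtain ⟨E, hE, h2, h3, h4, h5⟩ := h
  refine ⟨LinearMap.ker ((E - 1 : H →L[ℂ] H) : H →ₗ[ℂ] H), E, hE, h2, h3, h4, ?_, ?_, ?_, ?_, ?_⟩
  · intro v
    simp [sub_eq_zero]
  · exact (E - 1 : H →L[ℂ] H).isClosed_ker
  · intro h
    have hE0 : E = 0 := by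
      ext v
      have : E v ∈ LinearMap.ker ((E - 1 : H →L[ℂ] H) : H →ₗ[ℂ] H) := by
        have h6 : E (E v) = E v := by
          have := congrArg (fun A : H →L[ℂ] H => A v) h3
          simpa using this
        simp [h6]
      rw [h] at this
      simpa using this
    rw [hE0, map_zero] at h4
    norm_num at h4
  · intro h
    have hE1 : E = 1 := by
      ext v
      have : v ∈ LinearMap.ker ((E - 1 : H →L[ℂ] H) : H →ₗ[ℂ] H) := by
        rw [h]; trivial
      simpa [sub_eq_zero] using this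
    rw [hE1, h1] at h4
    norm_num at h4
  · intro S hS hST v hv
    have hv' : E v = v := by simpa [sub_eq_zero] using hv
    have h6 := congrArg (fun A : H →L[ℂ] H => A v) (h5 S hS hST)
    simp only [ContinuousLinearMap.mul_apply] at h6
    rw [hv'] at h6
    simp [← h6]

/-- **Theorem.** Let `M` be a von Neumann algebra with a faithful normal tracial state `τ` and with
the McDuff property (every McDuff II_1 factor, in particular the hyperfinite one and its tensor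
products with arbitrary tracial von Neumann algebras). The contractions of `M` which are
quasinilpotent in measure (Brown measure `δ_0`) form, with the metric of the 2-norm, a nonempty
Baire space `QC M τ`, and a typical element `T` of this space is injective and has a nontrivial
closed subspace, the range of a projection of `M` of trace `1/2`, which is invariant under all
operators of `M` commuting with `T`. -/
theorem result (H : Type) [NormedAddCommGroup H] [InnerProductSpace ℂ H] [CompleteSpace H]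
    (M : VonNeumannAlgebra H) (τ : (H →L[ℂ] H) →ₗ[ℂ] ℂ) (hτ : IsFNTrace M τ)
    (hM : IsMcDuff M τ) :
    Nonempty (QC M τ) ∧ ∃ _ : MetricSpace (QC M τ),
      (∀ S T : QC M τ, dist S T = Real.sqrt (τ (star (S.op - T.op) * (S.op - T.op))).re) ∧
      BaireSpace (QC M τ) ∧
      {T : QC M τ | (∀ v, T.op v = 0 → v = 0) ∧ HasHalfSubspace M τ T.op} ∈
        residual (QC M τ) := by
  refine ⟨⟨⟨0, zero_mem _, by simp, ?_⟩⟩, ?_⟩
  · intro r hr
    refine ⟨1, le_rfl, 1, one_mem _, IsStarProjection.one _, ?_, ?_⟩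
    · rw [hτ.one]; simp; linarith
    · simp; linarith
  · obtain ⟨mm, h1, h2, h3⟩ := fin2 H M τ hτ.one hτ.pos hτ.faithful hτ.trace hτ.normal hM
    refine ⟨mm, h1, h2, ?_⟩
    filter_upwards [h3] with T hT
    exact ⟨hT.1, half_of hτ.one hT.2⟩

end Pool.Agent.Results.MP_f981b0_an.TypicalInMcDuffAlgebras
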